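import Pool.Agent.Helper562.STLCTaylor
import Pool.Agent.Helper562.STLCConn

set_option autoImplicit false

open Set Filter Topology
open scoped ContDiff

namespace Pool.Agent.Y765.Stlc

open Pool.Agent.Helper562.STLC

noncomputable section

/-- forget the first coordinate -/
def tl (n : ℕ) : E (n + 1) →L[ℝ] E n :=
  LinearMap.toContinuousLinearMap
    { toFun := fun q => WithLp.toLp 2 (fun j => q j.succ)
      map_add' := fun a b => by ext j; simp
      map_smul' := fun c a => by ext j; simp }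

/-- first coordinate zero -/
def inc (n : ℕ) : E n →L[ℝ] E (n + 1) :=
  LinearMap.toContinuousLinearMap
    { toFun := fun q => WithLp.toLp 2 (Fin.cons 0 (fun j => q j))
      map_add' := fun a b => by
        ext j
        refine Fin.cases ?_ (fun j => ?_) j <;> simp
      map_smul' := fun c a => by
        ext j
        refine Fin.cases ?_ (fun j => ?_) j <;> simp }

/-- the first basis vector -/
def e0 (n : ℕ) : E (n + 1) := WithLp.toLp 2 (Fin.cons 1 (fun _ => 0))

variable {n k : ℕ}

@[simp] lemma tl_apply (q : E (n + 1)) (j : Fin n) : tl n q j = q j.succ := rfl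

@[simp] lemma inc_zero (q : E n) : inc n q 0 = 0 := rfl

@[simp] lemma inc_succ (q : E n) (j : Fin n) : inc n q j.succ = q j := rfl

@[simp] lemma e0_zero : e0 n 0 = 1 := rfl

@[simp] lemma e0_succ (j : Fin n) : e0 n j.succ = 0 := rfl

@[simp] lemma tl_inc (q : E n) : tl n (inc n q) = q := by ext j; simp

@[simp] lemma tl_e0 : tl n (e0 n) = 0 := by ext j; simp

lemma split (q : E (n + 1)) : q = inc n (tl n q) + q 0 • e0 n := by
  ext j
  refine Fin.cases ?_ (fun j => ?_) j <;> simp

lemma norm_inc (w : E n) : ‖inc n w‖ = ‖w‖ := by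
  rw [EuclideanSpace.norm_eq, EuclideanSpace.norm_eq, Fin.sum_univ_succ]
  simp

/-- the extension of a family by one dimension and two constant fields -/
def ext (f : Fin k → E n → E n) : Fin (k + 2) → E (n + 1) → E (n + 1) :=
  Fin.cons (fun _ => e0 n) (Fin.cons (fun _ => - e0 n) (fun i q => inc n (f i (tl n q))))

@[simp] lemma ext_zero (f : Fin k → E n → E n) (q : E (n + 1)) : ext f 0 q = e0 n := rfl

lemma ext_one' (f : Fin k → E n → E n) (q : E (n + 1)) :
    ext f (Fin.succ 0) q = - e0 n := rfl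

@[simp] lemma ext_one (f : Fin k → E n → E n) (q : E (n + 1)) :
    ext f 1 q = - e0 n := rfl

@[simp] lemma ext_succ (f : Fin k → E n → E n) (i : Fin k) (q : E (n + 1)) :
    ext f i.succ.succ q = inc n (f i (tl n q)) := rfl

lemma lift_conn {f : Fin k → E n → E n} {a b : E n} {T : ℝ} (h : Conn f a T b) :
    Conn (ext f) (inc n a) T (inc n b) := by
  induction h with
  | refl => exact Conn.refl
  | @step T θ b h hθ i η h0 hd ih =>
    refine ih.step hθ i.succ.succ (fun s => inc n (η s)) (by simp [h0]) (fun s hs => ?_)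
    rw [ext_succ, tl_inc]
    exact (inc n).hasFDerivAt.comp_hasDerivWithinAt s (hd s hs)

lemma leg {f : Fin k → E n → E n} {a b : E (n + 1)} {T : ℝ} (h : Conn (ext f) a T b) (c : ℝ) :
    Conn (ext f) a (T + |c|) (b + c • e0 n) := by
  rcases lt_trichotomy c 0 with hc | hc | hc
  · have h1 : |c| = -c := abs_of_neg hc
    have h2 := h.step (θ := -c) (by linarith) (Fin.succ 0) (fun s => b + s • (- e0 n)) (by simp)
      (fun s _ => by
        have h3 : HasDerivWithinAt (fun s : ℝ => b + s • (- e0 n)) ((1 : ℝ) • (- e0 n))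
            (Icc 0 (-c)) s :=
          ((hasDerivAt_id s).smul_const (- e0 n)).const_add b |>.hasDerivWithinAt
        rw [one_smul] at h3
        rw [ext_one']
        exact h3)
    rw [h1]
    have e : b + (-c) • (- e0 n) = b + c • e0 n := by simp
    rw [← e]
    exact h2
  · subst hc
    simpa using h
  · have h1 : |c| = c := abs_of_pos hc
    have h2 := h.step (θ := c) hc 0 (fun s => b + s • e0 n) (by simp)
      (fun s _ => by
        have h3 : HasDerivWithinAt (fun s : ℝ => b + s • e0 n) ((1 : ℝ) • e0 n)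
            (Icc 0 c) s :=
          ((hasDerivAt_id s).smul_const (e0 n)).const_add b |>.hasDerivWithinAt
        rw [one_smul] at h3
        rw [ext_zero]
        exact h3)
    rw [h1]
    exact h2

lemma reach_conn {f : Fin k → E n → E n} {t : ℝ} {N : ℕ} {x : E n} (h : Reachable f t N x) :
    ∃ T, 0 < T ∧ T < t ∧ Conn f 0 T x := by
  obtain ⟨τ, i, ξ, h0, h1, h2, h3, h4, h5, h6⟩ := h
  have key : ∀ j ≤ N, 0 < τ (j + 1) ∧ Conn f 0 (τ (j + 1)) (ξ j (τ (j + 1))) := by
    intro j
    induction j with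
    | zero =>
      intro hj
      have h7 := h1 0 hj
      rw [h0] at h7
      refine ⟨h7, ?_⟩
      have h8 := (Conn.refl (f := f) (a := 0)).step (θ := τ 1) h7 (i 0) (fun s => ξ 0 s) h4
        (fun s hs => by
          have := h3 0 hj s
          rw [h0] at this
          exact this hs)
      simpa using h8
    | succ j ih =>
      intro hj
      obtain ⟨h7, h8⟩ := ih (by omega)
      have h9 := h1 (j + 1) hj
      refine ⟨h7.trans h9, ?_⟩
      have h10 := h8.step (θ := τ (j + 1 + 1) - τ (j + 1)) (by linarith) (i (j + 1))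
        (fun s => ξ (j + 1) (s + τ (j + 1))) (by simp [h5 j (by omega)])
        (fun s hs => by
          have h11 := h3 (j + 1) hj (s + τ (j + 1)) ⟨by linarith [hs.1], by linarith [hs.2]⟩
          have h12 : HasDerivWithinAt (fun s : ℝ => s + τ (j + 1)) 1
              (Icc 0 (τ (j + 1 + 1) - τ (j + 1))) s :=
            ((hasDerivAt_id s).add_const _).hasDerivWithinAt
          have h13 : MapsTo (fun s : ℝ => s + τ (j + 1)) (Icc 0 (τ (j + 1 + 1) - τ (j + 1)))
              (Icc (τ (j + 1)) (τ (j + 1 + 1))) := by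
            intro u hu
            exact ⟨by linarith [hu.1], by linarith [hu.2]⟩
          have h14 := h11.scomp s h12 h13
          rw [one_smul] at h14
          exact h14)
      have e1 : τ (j + 1) + (τ (j + 1 + 1) - τ (j + 1)) = τ (j + 1 + 1) := by ring
      have e2 : τ (j + 1 + 1) - τ (j + 1) + τ (j + 1) = τ (j + 1 + 1) := by ring
      rw [e1] at h10
      simp only [e2] at h10
      exact h10
  obtain ⟨k1, k2⟩ := key N le_rfl
  rw [h6] at k2
  exact ⟨τ (N + 1), k1, h2, k2⟩

lemma proj_conn {g : Fin k → E n → E n} {a b : E (n + 1)} {T : ℝ} (h : Conn (ext g) a T b) :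
    ∃ T' ≤ T, Conn g (tl n a) T' (tl n b) := by
  induction h with
  | refl => exact ⟨0, le_rfl, Conn.refl⟩
  | @step T θ b h hθ i η h0 hd ih =>
    obtain ⟨T', hT', hc⟩ := ih
    have hstay : (∀ q, tl n (ext g i q) = 0) → tl n (η θ) = tl n b := by
      intro hz
      have h1 : ∀ s ∈ Icc 0 θ, HasDerivWithinAt (fun s => tl n (η s)) 0 (Icc 0 θ) s := by
        intro s hs
        have := (tl n).hasFDerivAt.comp_hasDerivWithinAt s (hd s hs)
        rw [hz] at this
        exact this
      have h2 := (convex_Icc (0 : ℝ) θ).norm_image_sub_le_of_norm_hasDerivWithin_le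
        (f := fun s => tl n (η s)) (f' := fun _ => 0) (C := 0) h1 (by simp)
        (left_mem_Icc.mpr hθ.le) (right_mem_Icc.mpr hθ.le)
      rw [zero_mul] at h2
      have h3 := norm_le_zero_iff.mp h2
      rw [sub_eq_zero] at h3
      rw [h3, h0]
    revert hd hstay
    refine Fin.cases ?_ (Fin.cases ?_ (fun i => ?_)) i
    · intro hd hstay
      refine ⟨T', by linarith, ?_⟩
      rw [hstay (fun q => by simp)]
      exact hc
    · intro hd hstay
      refine ⟨T', by linarith, ?_⟩
      rw [hstay (fun q => by rw [ext_one']; simp)]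
      exact hc
    · intro hd _
      refine ⟨T' + θ, by linarith, ?_⟩
      refine hc.step hθ i (fun s => tl n (η s)) (by rw [h0]) (fun s hs => ?_)
      have h5 := (tl n).hasFDerivAt.comp_hasDerivWithinAt s (hd s hs)
      rw [ext_succ, tl_inc] at h5
      exact h5

lemma stlc_ext {f : Fin k → E n → E n} (h : STLC f) : STLC (ext f) := by
  intro t ht
  have h1 := h (t / 2) (by linarith)
  rw [mem_interior_iff_mem_nhds] at h1 ⊢
  have h2 : (fun q => tl n q) ⁻¹' (Attainable f (t / 2)) ∈ 𝓝 (0 : E (n + 1)) := by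
    apply (tl n).continuous.continuousAt.preimage_mem_nhds
    rw [map_zero]
    exact h1
  have h3 : {q : E (n + 1) | |q 0| < t / 2} ∈ 𝓝 (0 : E (n + 1)) := by
    have hc : Continuous (fun q : E (n + 1) => |q 0|) :=
      ((EuclideanSpace.proj (0 : Fin (n + 1)) : E (n + 1) →L[ℝ] ℝ).continuous).abs
    apply (isOpen_lt hc continuous_const).mem_nhds
    simp only [mem_ofPred_eq, PiLp.zero_apply, abs_zero]
    linarith
  filter_upwards [h2, h3] with q hq hq0
  obtain ⟨N, hN⟩ := hq
  obtain ⟨T, hT, hTt, hc⟩ := reach_conn hN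
  have h4 := leg (lift_conn hc) (q 0)
  rw [map_zero, ← split q] at h4
  have hq0' : |q 0| < t / 2 := hq0
  have h5 : 0 ≤ |q 0| := abs_nonneg _
  exact h4.mem_attainable (by linarith) (by linarith)

/-- a quantitative failure of controllability: some points as near to the origin as we like, and
different from it, are not attainable in a certain time. -/
def Bad (g : Fin k → E n → E n) : Prop :=
  ∃ t > 0, ∀ r > 0, ∃ w : E n, w ≠ 0 ∧ ‖w‖ < r ∧ w ∉ Attainable g t

lemma Bad.not_stlc {g : Fin k → E n → E n} (h : Bad g) : ¬ STLC g := by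
  intro hs
  obtain ⟨t, ht, hb⟩ := h
  have h1 := hs t ht
  rw [mem_interior_iff_mem_nhds, Metric.mem_nhds_iff] at h1
  obtain ⟨r, hr, hball⟩ := h1
  obtain ⟨w, -, hw, hn⟩ := hb r hr
  exact hn (hball (by rwa [mem_ball_zero_iff]))

lemma bad_ext {g : Fin k → E n → E n} (h : Bad g) : Bad (ext g) := by
  obtain ⟨t, ht, hb⟩ := h
  refine ⟨t, ht, fun r hr => ?_⟩
  obtain ⟨w, hw0, hw, hn⟩ := hb r hr
  refine ⟨inc n w, ?_, by rwa [norm_inc], ?_⟩
  · intro h0
    apply hw0
    have := congrArg (tl n) h0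
    simpa using this
  · rintro ⟨N, hN⟩
    obtain ⟨T, hT, hTt, hc⟩ := reach_conn hN
    obtain ⟨T', hT', hc'⟩ := proj_conn hc
    rw [map_zero, tl_inc] at hc'
    rcases hc'.exists_data with ⟨-, h0⟩ | ⟨M, τ, i, ξ, g1, g2, g3, g4, g5, g6, g7⟩
    · exact hw0 h0
    · exact hn ⟨M, τ, i, ξ, g1, g2, by rw [g3]; linarith, g4, g5, g6, g7⟩

lemma poly_ext {f : Fin k → E n → E n} (h : ∀ i, IsPolynomialField (f i)) (i : Fin (k + 2)) :
    IsPolynomialField (ext f i) := by
  refine Fin.cases ?_ (Fin.cases ?_ (fun i => ?_)) i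
  · refine ⟨Fin.cons 1 (fun _ => 0), fun x j => ?_⟩
    refine Fin.cases ?_ (fun j => ?_) j <;> simp
  · refine ⟨Fin.cons (-1) (fun _ => 0), fun x j => ?_⟩
    rw [ext_one']
    refine Fin.cases ?_ (fun j => ?_) j <;> simp
  · obtain ⟨P, hP⟩ := h i
    refine ⟨Fin.cons 0 (fun j => MvPolynomial.rename Fin.succ (P j)), fun x j => ?_⟩
    refine Fin.cases ?_ (fun j => ?_) j
    · simp
    · rw [ext_succ, inc_succ, hP, Fin.cons_succ, MvPolynomial.eval_rename]
      rfl

lemma analytic_ext {f : Fin k → E n → E n} (h : ∀ i, AnalyticOnNhd ℝ (f i) univ)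
    (i : Fin (k + 2)) : AnalyticOnNhd ℝ (ext f i) univ := by
  refine Fin.cases ?_ (Fin.cases ?_ (fun i => ?_)) i
  · exact analyticOnNhd_const
  · exact analyticOnNhd_const
  · have h1 : AnalyticOnNhd ℝ (fun q => f i (tl n q)) univ :=
      (h i).comp ((tl n).analyticOnNhd univ) (mapsTo_univ _ _)
    exact ((inc n).analyticOnNhd univ).comp h1 (mapsTo_univ _ _)

lemma agree_ext {f g : Fin k → E n → E n} (hf : ∀ i, AnalyticOnNhd ℝ (f i) univ)
    (hg : ∀ i, AnalyticOnNhd ℝ (g i) univ) {N : ℕ} (h : AgreeToOrder N f g) :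
    AgreeToOrder N (ext f) (ext g) := by
  intro i
  refine Fin.cases ?_ (Fin.cases ?_ (fun i => ?_)) i
  · intro j _; rfl
  · intro j _; rfl
  · intro j hj
    have key : ∀ F : E n → E n, AnalyticOnNhd ℝ F univ →
        iteratedFDeriv ℝ j (fun q => inc n (F (tl n q))) 0 =
          (inc n).compContinuousMultilinearMap
            ((iteratedFDeriv ℝ j F 0).compContinuousLinearMap fun _ => tl n) := by
      intro F hF
      have hF' : ContDiff ℝ ω F := contDiff_omega_iff_analyticOnNhd.2 hF
      have h1 : ContDiff ℝ ω (F ∘ tl n) := hF'.comp (tl n).contDiff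
      have h2 := (inc n).iteratedFDeriv_comp_left (x := 0) (i := j) h1.contDiffAt le_top
      have h3 := (tl n).iteratedFDeriv_comp_right (i := j) hF' 0 le_top
      rw [map_zero] at h3
      rw [h3] at h2
      exact h2
    have e1 := key (f i) (hf i)
    have e2 := key (g i) (hg i)
    have e3 := h i j hj
    change iteratedFDeriv ℝ j (fun q => inc n (f i (tl n q))) 0 =
      iteratedFDeriv ℝ j (fun q => inc n (g i (tl n q))) 0
    rw [e1, e2, e3]

/-- the property in dimension `n` with `k` fields -/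
def Good (n k : ℕ) : Prop :=
  ∃ f : Fin k → E n → E n,
    (∀ i, IsPolynomialField (f i) ∧ AnalyticOnNhd ℝ (f i) univ) ∧ STLC f ∧
    ∀ N : ℕ, ∃ g : Fin k → E n → E n,
      (∀ i, IsPolynomialField (g i) ∧ AnalyticOnNhd ℝ (g i) univ) ∧
      AgreeToOrder N f g ∧ Bad g

lemma good_succ (h : Good n k) : Good (n + 1) (k + 2) := by
  obtain ⟨f, hf, hs, hN⟩ := h
  refine ⟨ext f, fun i => ⟨poly_ext (fun i => (hf i).1) i, analytic_ext (fun i => (hf i).2) i⟩,
    stlc_ext hs, fun N => ?_⟩
  obtain ⟨g, hg, ha, hb⟩ := hN N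
  exact ⟨ext g, fun i => ⟨poly_ext (fun i => (hg i).1) i, analytic_ext (fun i => (hg i).2) i⟩,
    agree_ext (fun i => (hf i).2) (fun i => (hg i).2) ha, bad_ext hb⟩

lemma reach_comp {k' : ℕ} (f : Fin k → E n → E n) (σ : Fin k' → Fin k)
    (hσ : Function.Surjective σ) (t : ℝ) :
    Attainable (fun i => f (σ i)) t = Attainable f t := by
  ext x
  constructor
  · rintro ⟨N, τ, i, ξ, h⟩
    exact ⟨N, τ, fun j => σ (i j), ξ, h⟩
  · rintro ⟨N, τ, i, ξ, h1, h2, h3, h4, h5, h6, h7⟩
    refine ⟨N, τ, fun j => Function.surjInv hσ (i j), ξ, h1, h2, h3, fun j hj s hs => ?_, h5, h6,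
      h7⟩
    have := h4 j hj s hs
    simp only [Function.surjInv_eq hσ]
    exact this

lemma good_pad {k' : ℕ} (hk : 0 < k) (hkk : k ≤ k') (h : Good n k) : Good n k' := by
  obtain ⟨f, hf, hs, hN⟩ := h
  let σ : Fin k' → Fin k := fun i => if h : i.val < k then ⟨i.val, h⟩ else ⟨0, hk⟩
  have hσ : Function.Surjective σ := by
    intro j
    refine ⟨⟨j.val, lt_of_lt_of_le j.2 hkk⟩, ?_⟩
    simp only [σ, j.2, dif_pos]
  refine ⟨fun i => f (σ i), fun i => hf (σ i), fun t ht => ?_, fun N => ?_⟩
  · rw [reach_comp f σ hσ]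
    exact hs t ht
  · obtain ⟨g, hg, ha, t, ht, hb⟩ := hN N
    refine ⟨fun i => g (σ i), fun i => hg (σ i), fun i => ha (σ i), t, ht, fun r hr => ?_⟩
    rw [reach_comp g σ hσ]
    exact hb r hr

end

end Pool.Agent.Y765.Stlc
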